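import Pool.Agent.H71R2.Thin.Common
import Pool.Agent.H71R2.Hyp.FP

/-!
# Schreier growth gaps from subgroups invisible in virtual first cohomology
-/

set_option autoImplicit false

open scoped Pointwise

namespace Pool.Agent.Results.MP_b77ed1_al.UnseenSubgroups

open Pool.Agent.H71R2.Thin Pool.Agent.H71R2.Hyp

universe u v

/-- The ball of radius `n` around `x` in the Schreier graph of an action with respect to `S`. -/
def ball {G : Type u} {X : Type v} [Group G] [MulAction G X] (S : Set G) (n : ℕ) (x : X) : Set X :=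
  {y | ∃ g ∈ (S ∪ S⁻¹ ∪ {1}) ^ n, y = g • x}

/-- Let `G` be a hyperbolic or, more generally, a finitely presented group with finite generating
set `S`, and let `L` be an infinite finitely generated subgroup of `G` such that every
homomorphism from a finite-index subgroup `K` of `G` to `ℤ` is trivial on `K ∩ L`. Then `G` has the
nontrivial Schreier growth gap `n log n / log log n`: there are `ε > 0` and `n₀` such that for every
faithful action of `G` on a set `X` and every `n ≥ n₀` some ball of radius `n` has at least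
`ε n log n / log log n` points. -/
theorem result (G : Type u) [Group G] (S : Finset G) (hS : Subgroup.closure (S : Set G) = ⊤)
    (hG : Hyperbolic G ∨ Group.IsFinitelyPresented G) (L : Subgroup G) (hLfg : L.FG)
    (hLinf : Infinite L) (hL : ∀ K : Subgroup G, K.FiniteIndex →
      ∀ (f : K →* Multiplicative ℤ) (g : K), (g : G) ∈ L → f g = 1) :
    ∃ ε : ℝ, 0 < ε ∧ ∃ n₀ : ℕ, ∀ (X : Type v) [MulAction G X] [FaithfulSMul G X] (n : ℕ),
      n₀ ≤ n → ∃ x : X,
        ε * (n * Real.log n / Real.log (Real.log n)) ≤ (ball (S : Set G) n x).ncard := by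
  have hfp : Group.IsFinitelyPresented G := hG.elim (fun h => h.fp) id
  have hseen : ¬ Seen L := by
    rintro ⟨K, hK, f, g, hg, hfg⟩
    exact hfg (hL K hK f g hg)
  obtain ⟨ε, hε, n0, h⟩ := faithful_gap_sub.{u, v} G (sym_finite S) (one_mem_sym _)
    (sym_closure hS) L hLfg hLinf hseen
  refine ⟨ε, hε, n0, fun X _ _ n hn => ?_⟩
  obtain ⟨x, hx⟩ := h X n hn
  refine ⟨x, ?_⟩
  have e : ball (S : Set G) n x = Bl (sym (S : Set G)) x n := by
    ext y
    rw [mem_nb_iff]
    constructor
    · rintro ⟨g, hg, rfl⟩
      exact ⟨g, hg, x, rfl, rfl⟩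
    · rintro ⟨g, hg, d, hd, rfl⟩
      rw [Set.mem_singleton_iff.1 hd]
      exact ⟨g, hg, rfl⟩
  rw [e]
  exact hx

end Pool.Agent.Results.MP_b77ed1_al.UnseenSubgroups
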